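import Mathlib
import Pool.Agent.Q15.SelfInv
import Pool.Agent.Q15.SelfInvPoly

namespace Pool.Agent.Results.MP_e6e7b2_al.SelfInvertingSeries

open MvPowerSeries

/-- The Hessian matrix of a formal power series in `n` variables. -/
noncomputable def hessian {n : ℕ} (P : MvPowerSeries (Fin n) ℂ) :
    Matrix (Fin n) (Fin n) (MvPowerSeries (Fin n) ℂ) :=
  Matrix.of fun i j => pderiv ℂ i (pderiv ℂ j P)

/-- `P` is Hessian nilpotent. -/
def HessianNilpotent {n : ℕ} (P : MvPowerSeries (Fin n) ℂ) : Prop := IsNilpotent (hessian P)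

/-- `Q` is the inversion pair of `P`: `Q(0) = 0` and the formal map `z + ∇Q(z)` is the
two-sided inverse of `z - ∇P(z)`. -/
structure IsInversionPair {n : ℕ} (P Q : MvPowerSeries (Fin n) ℂ) : Prop where
  zero : constantCoeff Q = 0
  comp_right : ∀ i, subst (fun j => (X j + pderiv ℂ j Q : MvPowerSeries (Fin n) ℂ))
    (X i - pderiv ℂ i P) = (X i : MvPowerSeries (Fin n) ℂ)
  comp_left : ∀ i, subst (fun j => (X j - pderiv ℂ j P : MvPowerSeries (Fin n) ℂ))
    (X i + pderiv ℂ i Q) = (X i : MvPowerSeries (Fin n) ℂ)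

/-- `P` is self-inverting: `o(P) ≥ 2`, `(Hes P)(0)` is nilpotent, and `P` is its own inversion
pair. -/
structure SelfInverting {n : ℕ} (P : MvPowerSeries (Fin n) ℂ) : Prop where
  order : 2 ≤ P.order
  nilpotent : IsNilpotent ((hessian P).map (constantCoeff (σ := Fin n) (R := ℂ)))
  pair : IsInversionPair P P

open Q15SelfInv in
theorem counterexample (m : ℕ) : SelfInverting (P : PS m) ∧ ¬ HessianNilpotent (P : PS m) := by
  refine ⟨⟨?_, ?_, ⟨?_, ?_, ?_⟩⟩, ?_⟩
  · exact le_order_pow_of_constantCoeff_eq_zero 2 (by simp [constCoeff_w])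
  · refine ⟨2, ?_⟩
    have h : (hessian (P : PS m)).map (constantCoeff (σ := Fin (m + 3)) (R := ℂ)) =
        Matrix.of fun i j => 2 * (constantCoeff (c i) * constantCoeff (c j)) := by
      ext i j
      simp only [hessian, Matrix.map_apply, Matrix.of_apply]
      rw [dP, Derivation.leibniz, Derivation.leibniz, du]
      have e2 : pderiv ℂ i (2 : PS m) = 0 := by
        have : (2 : PS m) = C 2 := by rw [map_ofNat]
        rw [this, pderiv_C]
      rw [e2]
      simp only [smul_eq_mul, mul_zero, add_zero, map_add, map_mul, constCoeff_w, zero_mul,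
        zero_add, vv, map_sub, map_pow, constCoeff_E, mul_one, sub_zero, map_ofNat]
      ring
    rw [h]
    ext i j
    rw [sq, Matrix.mul_apply, Matrix.zero_apply]
    have h1 := congrArg constantCoeff (sum_cc (m := m))
    rw [map_sum, map_zero] at h1
    have h2 : ∀ k, (Matrix.of fun i j => 2 * (constantCoeff (c i : PS m) * constantCoeff (c j)))
        i k * (Matrix.of fun i j => 2 * (constantCoeff (c i : PS m) * constantCoeff (c j))) k j =
        4 * (constantCoeff (c i : PS m)) * (constantCoeff (c j : PS m)) *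
          constantCoeff (c k * c k : PS m) := by
      intro k
      simp only [Matrix.of_apply, map_mul]
      ring
    rw [Finset.sum_congr rfl fun k _ => h2 k, ← Finset.mul_sum, h1, mul_zero]
  · unfold P
    simp [constCoeff_w]
  · intro i
    have h := φ_dP (m := m) 1 i
    have hX := φ_X (m := m) 1 i
    have hs : (fun j => (X j + pderiv ℂ j P : PS m)) = sb 1 := by
      funext j
      unfold sb
      rw [map_one, one_mul]
    rw [hs]
    have e := substAlgHom_apply (hasSubst (m := m) 1) (X i - pderiv ℂ i P : PS m)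
    rw [← e]
    change φ 1 (X i - pderiv ℂ i P) = X i
    rw [map_sub, h, hX, map_one]
    ring
  · intro i
    have h := φ_dP (m := m) (-1) i
    have hX := φ_X (m := m) (-1) i
    have hs : (fun j => (X j - pderiv ℂ j P : PS m)) = sb (-1) := by
      funext j
      unfold sb
      rw [map_neg, map_one]
      ring
    rw [hs]
    have e := substAlgHom_apply (hasSubst (m := m) (-1)) (X i + pderiv ℂ i P : PS m)
    rw [← e]
    change φ (-1) (X i + pderiv ℂ i P) = X i
    rw [map_add, h, hX, map_neg, map_one]
    ring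
  · intro h
    have h1 := Matrix.isNilpotent_trace_of_isNilpotent h
    have h2 : (hessian (P : PS m)).trace = 0 := h1.eq_zero
    have h3 : (hessian (P : PS m)).trace = ∑ j, pderiv ℂ j (pderiv ℂ j P) := rfl
    rw [h3, laplace] at h2
    have h4 : (8 - 4 * ((m : ℂ) + 3)) ≠ 0 := by
      have : (8 - 4 * ((m : ℂ) + 3)) = - (4 * ((m : ℂ) + 1)) := by ring
      rw [this]
      have h5 : ((m : ℂ) + 1) ≠ 0 := by exact_mod_cast Nat.succ_ne_zero m
      exact neg_ne_zero.mpr (mul_ne_zero (by norm_num) h5)
    have h6 : (w ^ 2 * E ^ 3 : PS m) = 0 := (smul_eq_zero.mp h2).resolve_left h4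
    have h7 : (E : PS m) ≠ 0 := by
      intro h
      have := constCoeff_E (m := m)
      rw [h, map_zero] at this
      exact zero_ne_one this
    have h8 : (w : PS m) = 0 := by
      rcases mul_eq_zero.mp h6 with h9 | h9
      · exact pow_eq_zero_iff (by norm_num) |>.mp h9
      · exact absurd (pow_eq_zero_iff (by norm_num) |>.mp h9) h7
    have h9 := congrArg (fun f => constantCoeff (pderiv ℂ 0 f)) h8
    simp only [dw, map_zero] at h9
    unfold c at h9
    simp at h9

theorem polynomial_case {n : ℕ} (p : MvPolynomial (Fin n) ℂ)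
    (h : SelfInverting (p : MvPowerSeries (Fin n) ℂ)) :
    HessianNilpotent (p : MvPowerSeries (Fin n) ℂ) := by
  have key : ∀ i, MvPolynomial.aeval (fun j => MvPolynomial.X j + MvPolynomial.pderiv j p)
      (MvPolynomial.pderiv i p) = MvPolynomial.pderiv i p := by
    intro i
    have h1 := h.pair.comp_right i
    have h2 : (X i - pderiv ℂ i (p : MvPowerSeries (Fin n) ℂ) : MvPowerSeries (Fin n) ℂ) =
        ((MvPolynomial.X i - MvPolynomial.pderiv i p : MvPolynomial (Fin n) ℂ) :
          MvPowerSeries (Fin n) ℂ) := by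
      rw [pderiv_coe]
      have h0 := map_sub (MvPolynomial.coeToMvPowerSeries.ringHom (σ := Fin n) (R := ℂ))
        (MvPolynomial.X i) (MvPolynomial.pderiv i p)
      simp only [MvPolynomial.coeToMvPowerSeries.ringHom_apply, MvPolynomial.coe_X] at h0
      exact h0.symm
    rw [h2, subst_coe] at h1
    have h3 : ∀ q : MvPolynomial (Fin n) ℂ,
        MvPolynomial.aeval (fun j => (X j + pderiv ℂ j (p : MvPowerSeries (Fin n) ℂ) :
          MvPowerSeries (Fin n) ℂ)) q =
        ((MvPolynomial.aeval (fun j => MvPolynomial.X j + MvPolynomial.pderiv j p) q :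
          MvPolynomial (Fin n) ℂ) : MvPowerSeries (Fin n) ℂ) := by
      intro q
      induction q using MvPolynomial.induction_on with
      | C r =>
        have h1 : (MvPolynomial.C r : MvPolynomial (Fin n) ℂ) = algebraMap ℂ _ r := rfl
        rw [h1, AlgHom.commutes, AlgHom.commutes, ← h1, MvPolynomial.coe_C]
        rfl
      | add p q hp hq => rw [map_add, map_add, MvPolynomial.coe_add, hp, hq]
      | mul_X p i hp =>
        rw [map_mul, map_mul, MvPolynomial.coe_mul, hp]
        congr 1
        rw [MvPolynomial.aeval_X, MvPolynomial.aeval_X, MvPolynomial.coe_add, pderiv_coe,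
          MvPolynomial.coe_X]
    rw [h3, ← MvPolynomial.coe_X] at h1
    have h4 := MvPolynomial.coe_injective (Fin n) ℂ h1
    rw [map_sub, MvPolynomial.aeval_X] at h4
    linear_combination -h4
  have h5 := Q15SelfInv.jacobian_nilpotent (fun i => MvPolynomial.pderiv i p) key
  obtain ⟨N, hN⟩ := h5
  refine ⟨N, ?_⟩
  have h6 : hessian (p : MvPowerSeries (Fin n) ℂ) =
      ((Matrix.of fun i l => MvPolynomial.pderiv l (MvPolynomial.pderiv i p)).map
        (MvPolynomial.coeToMvPowerSeries.ringHom (σ := Fin n) (R := ℂ))).transpose := by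
    ext1 i j
    simp only [hessian, Matrix.of_apply, Matrix.transpose_apply, Matrix.map_apply,
      MvPolynomial.coeToMvPowerSeries.ringHom_apply]
    rw [pderiv_coe, pderiv_coe]
  rw [h6, ← Matrix.transpose_pow, ← Matrix.map_pow, hN]
  ext1 i j
  simp

/-- In every dimension `n ≥ 3` there is a self-inverting formal power series that is not Hessian
nilpotent, whereas in every dimension all self-inverting polynomials are Hessian nilpotent. -/
theorem result :
    (∀ n : ℕ, 3 ≤ n → ∃ P : MvPowerSeries (Fin n) ℂ, SelfInverting P ∧ ¬ HessianNilpotent P) ∧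
    (∀ (n : ℕ) (p : MvPolynomial (Fin n) ℂ), SelfInverting (p : MvPowerSeries (Fin n) ℂ) →
      HessianNilpotent (p : MvPowerSeries (Fin n) ℂ)) := by
  refine ⟨?_, fun n p h => polynomial_case p h⟩
  intro n hn
  obtain ⟨m, rfl⟩ : ∃ m, n = m + 3 := ⟨n - 3, by omega⟩
  exact ⟨_, counterexample m⟩

end Pool.Agent.Results.MP_e6e7b2_al.SelfInvertingSeries
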